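import Pool.Agent.N115.JU.Mov
import Pool.Agent.N115.JS.Def
import Pool.Agent.Y221.FQ.Sub

/-!
The points of the images, under finite morphisms, of finite covers of closed subsets of the varieties
of powers of values of polynomials.
-/

set_option autoImplicit false
set_option linter.unusedSectionVars false

open FF Polynomial

namespace Pool.Agent.N115.JU

open Pool.Agent.W602.GT
open Pool.Agent.Y221.FQ
open Pool.Agent.N115.JS
open Pool.Agent.N115.JT (trans_alg adjoin_alg)
open Pool.Agent.Y190.AN (alg_mono)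
open Pool.Agent.Y190.BV (intp intp_eval intp_natDegree sub_ext)
open Pool.Agent.Y190.PH (AllSimple simple_all)

section joint

variable {k L : Type} [Field k] [Field L] [Algebra k L] [CharZero k] {N n r : ℕ}
  {a : Fin (N + 1) → k}

/-- a single map whose reduced map is generically finite -/
theorem joint_of_alg (f : Corr k L a n r) (h : Algebra.IsAlgebraic (coords k f.red) f.E) :
    JointlyFinite (fun _ : Unit => f) := by
  classical
  let Ω := AlgebraicClosure L
  obtain ⟨A, hA⟩ : ∃ A : IntermediateField k Ω, A = IntermediateField.adjoin k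
    (⋃ i : Unit, ((fun _ : Unit => f) i).values) := ⟨_, rfl⟩
  let σ : f.E →ₐ[L] Ω := IsAlgClosed.lift
  let φ : f.E →ₐ[k] Ω := σ.restrictScalars k
  have hle : (coords k f.red).map φ ≤ A := by
    rw [IntermediateField.map_le_iff_le_comap]
    unfold Pool.Agent.W602.GT.coords
    rw [IntermediateField.adjoin_le_iff]
    rintro _ ⟨i', j, hj, rfl⟩
    change φ _ ∈ A
    rw [hA]
    exact IntermediateField.subset_adjoin k _ (Set.mem_iUnion.2 ⟨(), σ, i', j, hj, rfl⟩)
  have h1 : ∀ e : f.E, IsAlgebraic A (φ e) := by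
    intro e
    obtain ⟨p, hp, hpe⟩ := h.isAlgebraic e
    let ψ : coords k f.red →+* A :=
      { toFun := fun x => ⟨φ x, hle ⟨x, x.2, rfl⟩⟩
        map_one' := Subtype.ext (map_one _)
        map_mul' := fun x y => Subtype.ext (map_mul _ _ _)
        map_zero' := Subtype.ext (map_zero _)
        map_add' := fun x y => Subtype.ext (map_add _ _ _) }
    refine ⟨p.map ψ, (Polynomial.map_ne_zero_iff ψ.injective).2 hp, ?_⟩
    rw [Polynomial.aeval_def, Polynomial.eval₂_map]
    have h2 : (algebraMap A Ω).comp ψ = φ.toRingHom.comp (algebraMap (coords k f.red) f.E) :=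
      RingHom.ext fun x => rfl
    rw [h2]
    have h3 := Polynomial.hom_eval₂ p (algebraMap (coords k f.red) f.E) φ.toRingHom e
    rw [Polynomial.aeval_def] at hpe
    change Polynomial.eval₂ _ (φ.toRingHom e) p = 0
    rw [← h3, hpe, map_zero]
  refine ⟨fun x => ?_⟩
  rw [← hA]
  -- the image of `L`
  let B : IntermediateField k Ω := (⊤ : IntermediateField k L).map (Algebra.ofId L Ω |>.restrictScalars k)
  have hx : IsAlgebraic B x := by
    obtain ⟨p, hp, hpx⟩ := Algebra.IsAlgebraic.isAlgebraic (R := L) x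
    let ψ : L →+* B :=
      { toFun := fun l => ⟨algebraMap L Ω l, ⟨l, trivial, rfl⟩⟩
        map_one' := Subtype.ext (map_one _)
        map_mul' := fun x y => Subtype.ext (map_mul _ _ _)
        map_zero' := Subtype.ext (map_zero _)
        map_add' := fun x y => Subtype.ext (map_add _ _ _) }
    refine ⟨p.map ψ, (Polynomial.map_ne_zero_iff ψ.injective).2 hp, ?_⟩
    rw [Polynomial.aeval_def, Polynomial.eval₂_map]
    have h2 : (algebraMap B Ω).comp ψ = algebraMap L Ω := RingHom.ext fun x => rfl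
    rw [h2, ← Polynomial.aeval_def]
    exact hpx
  refine trans_alg (A := B) ?_ hx
  rintro _ ⟨l, -, rfl⟩
  have h4 : (Algebra.ofId L Ω |>.restrictScalars k) l = φ (algebraMap L f.E l) := by
    change algebraMap L Ω l = σ (algebraMap L f.E l)
    rw [σ.commutes]
  change IsAlgebraic A ((Algebra.ofId L Ω |>.restrictScalars k) l)
  rw [h4]
  exact h1 _

end joint

section general

variable {k : Type} [Field k] [IsAlgClosed k] [CharZero k] {m' n' M : ℕ} {ι κ μ : Type}
  {Ψ : κ → MvPolynomial (Fin (m' + 1)) k} {F : ι → MvPolynomial (Fin (n' + 1)) k}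
  {Φ : μ → MvPolynomial (Fin (M + 1)) k} {G : Fin (M + 1) → MvPolynomial (Fin (m' + 1)) k}
  {B : Fin (n' + 1) → MvPolynomial (Fin (m' + 1)) k}

/-- the form vanishes on all lines in `{F = 0}` -/
def VanLine (F : ι → MvPolynomial (Fin (n' + 1)) k) (H : MvPolynomial (Fin (n' + 1)) k) : Prop :=
  ∀ p p', Line F p p' → ∀ c c' : k, val (c • p + c' • p') H = 0

/-- forms on the image -/
theorem van_imL (hB : Mor Ψ F B) {H : MvPolynomial (Fin (M + 1)) k}
    (hH : ∀ x ∈ Cone Ψ, im B x ∈ SpLine F → val (im G x) H = 0) {K : Type} [Field K] [Algebra k K]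
    {u : Fin (m' + 1) → K} {i0 : Fin (m' + 1)} (hi0 : u i0 = 1) (huΨ : ∀ e, val u (Ψ e) = 0)
    (hvan : ∀ H', IsForm H' → VanLine F H' → val (im B u) H' = 0) : val (im G u) H = 0 := by
  rw [val_im]
  by_contra hcon
  obtain ⟨x, hx, hx0⟩ := specialise u (MvPolynomial.aeval G H) hcon
  have hxi : x i0 = 1 := by
    have h1 := hx0 (MvPolynomial.X i0 - 1) (by
      rw [map_sub, MvPolynomial.aeval_X, map_one, hi0, sub_self])
    rw [map_sub, MvPolynomial.aeval_X, map_one] at h1
    exact sub_eq_zero.1 h1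
  have hxc : x ∈ Cone Ψ := by
    refine ⟨fun h0 => ?_, fun e => hx0 _ (huΨ e)⟩
    rw [h0] at hxi
    exact zero_ne_one hxi
  apply hx
  have h1 := hH x hxc ⟨hB.maps x hxc, fun H' hH' hGm => ?_⟩
  · rw [val_im] at h1
    exact h1
  · rw [val_im]
    refine hx0 _ ?_
    have h2 := hvan H' hH' hGm
    rw [val_im] at h2
    exact h2

/-- the image of the closed set is closed -/
theorem closed_imL (hΨ : ∀ e, IsForm (Ψ e)) (hB : Mor Ψ F B) (hG : Mor Ψ Φ G)
    {q : Fin (M + 1) → k} (hq : q ≠ 0)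
    (hH : ∀ H : MvPolynomial (Fin (M + 1)) k, IsForm H →
      (∀ x ∈ Cone Ψ, im B x ∈ SpLine F → val (im G x) H = 0) → val q H = 0) :
    ∃ x ∈ Cone Ψ, im B x ∈ SpLine F ∧ im G x = q := by
  obtain ⟨e, he, hGe⟩ := hG.form
  obtain ⟨e', he', hBe⟩ := hB.form
  let Ψ' : κ ⊕ {H' : MvPolynomial (Fin (n' + 1)) k // IsForm H' ∧ VanLine F H'} →
      MvPolynomial (Fin (m' + 1)) k := Sum.elim Ψ fun H' => MvPolynomial.aeval B H'.1
  have hΨ' : ∀ a, IsForm (Ψ' a) := by
    rintro (a | a)
    · exact hΨ a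
    · exact form_im hBe a.2.1
  have hC : ∀ x, x ∈ Cone Ψ' → x ∈ Cone Ψ ∧ im B x ∈ SpLine F := by
    rintro x ⟨hx0, hx⟩
    have h1 : x ∈ Cone Ψ := ⟨hx0, fun a => hx (Sum.inl a)⟩
    refine ⟨h1, hB.maps x h1, fun H' hH' hGm => ?_⟩
    rw [val_im]
    exact hx (Sum.inr ⟨H', hH', hGm⟩)
  obtain ⟨x, hx, hxq⟩ := surj (F := Ψ') (G := G) hΨ' (fun x hx0 hx => by
    exact hG.noBase x hx0 fun a => hx (Sum.inl a)) he hGe (Ω := k) (z := q)
    (fun H hHf hH' => hH H hHf fun x hx hBx => hH' x ⟨hx.1, by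
      rintro (a | a)
      · exact hx.2 a
      · change val x (MvPolynomial.aeval B a.1) = 0
        rw [← val_im]
        exact hBx.2 a.1 a.2.1 a.2.2⟩)
  have hx0 : x ≠ 0 := by
    rintro rfl
    apply hq
    rw [← hxq]
    have h2 : (0 : Fin (m' + 1) → k) = fun i => (0 : k) * (0 : Fin (m' + 1) → k) i := by
      funext i
      simp
    rw [h2, im_smul hGe, zero_pow (by omega)]
    funext j
    simp
  obtain ⟨h1, h2⟩ := hC x ⟨hx0, hx⟩
  exact ⟨x, h1, h2, hxq⟩

/-- **Points of images of covers.** Either the point has a multi-valued map whose reduced map is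
generically finite, or it lies in the image of the lines. -/
theorem joint_or {n m : ℕ} (hm : 2 ≤ m) (hn : n ≤ n') (hnN : 2 ≤ n → n < n') {a : Fin (n' + 1) → k}
    (ha : Function.Injective a) (hFf : ∀ e, IsForm (F e)) (hS : AllSimple a n m F)
    (hΨ : ∀ e, IsForm (Ψ e)) (hB : Mor Ψ F B) (hG : Mor Ψ Φ G)
    (hon : Onto Ψ Φ G) {r : ℕ} (hfib : FibresLe Ψ G r) {K : Type} [Field K]
    [Algebra k K] {z : Fin (M + 1) → K} (hz : z ≠ 0) (hzΦ : ∀ e, val z (Φ e) = 0)
    (hgen : coords k z = ⊤) :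
    (∃ f : Corr k K a n r, JointlyFinite (fun _ : Unit => f)) ∨
      ∀ H : MvPolynomial (Fin (M + 1)) k, IsForm H →
        (∀ x ∈ Cone Ψ, im B x ∈ SpLine F → val (im G x) H = 0) → val z H = 0 := by
  by_cases hall : ∀ H : MvPolynomial (Fin (M + 1)) k, IsForm H → (∀ x ∈ Cone Ψ, im B x ∈ SpLine F → val (im G x) H = 0) →
    val z H = 0
  · exact Or.inr hall
  left
  push Not at hall
  obtain ⟨H, hHf, hHx, hHne⟩ := hall
  obtain ⟨E, i1, i2, i3, i4, i5, u, i0, c, hrk, hu0, huΨ, hc0, hcz, htop⟩ :=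
    lift_point hΨ hG hon hfib hz hzΦ
  have hu : u ≠ 0 := by
    intro h0
    rw [h0] at hu0
    exact zero_ne_one hu0
  obtain ⟨hy, hyF⟩ := hB.mem hu huΨ
  have halg := lift_alg (G := G) hΨ hB hgen hu0 huΨ hc0 hcz htop
  have hexH : ∃ H' : MvPolynomial (Fin (n' + 1)) k, IsForm H' ∧ VanLine F H' ∧ val (im B u) H' ≠ 0 := by
    by_contra hcon
    push Not at hcon
    exact hHne (val_prop hcz hHf (van_imL hB hHx hu0 huΨ hcon))
  obtain ⟨H', hH'f, hH'v, hH'ne⟩ := hexH
  have hs := simple_all (by omega) hn ha hS hy hyF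
  have hyb := sub_ext (hS.sub hn ha) hy hyF
  have hev : ∀ i, (intp a hn (fun i => im B u i ^ m)).eval (algebraMap k E (a i)) = im B u i ^ m :=
    intp_eval ha hn m hyb
  have hdeg : (intp a hn (fun i => im B u i ^ m)).natDegree ≤ n := intp_natDegree ha hn _
  obtain ⟨P, hP⟩ : ∃ P, P = intp a hn (fun i => im B u i ^ m) := ⟨_, rfl⟩
  rw [← hP] at hev hdeg hs
  have hP0 : P ≠ 0 := by
    rintro rfl
    apply hy
    funext i
    have h1 := hev i
    rw [eval_zero] at h1
    exact eq_zero_of_pow_eq_zero h1.symm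
  obtain ⟨q, Q, hqQ, hfree⟩ := exists_free (by omega : 1 ≤ m) P hP0
  let f : Corr k K a n r :=
    { m := m
      two_le := hm
      E := E
      degree_le := hrk
      y := im B u
      q := q
      H := Q
      ne := hy
      deg := by rw [← hqQ]; exact hdeg
      val := fun i => by rw [← hqQ, hev]
      free := hfree }
  refine ⟨f, joint_of_alg f ?_⟩
  have hq1 : q.natDegree ≤ 1 := hs q ⟨Q, hqQ⟩
  have hrat := fin_or_line hm ha hnN hFf hy hyF f.deg f.val hq1 (z := f.red) (fun i => rfl)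
    hH'v hH'ne
  have hco : ∀ x ∈ coords k (im B u), IsAlgebraic (coords k f.red) x := by
    unfold Pool.Agent.W602.GT.coords
    refine adjoin_alg ?_
    rintro _ ⟨i, j, hj, rfl⟩
    exact hrat i j hj
  refine ⟨fun x => ?_⟩
  exact trans_alg hco (halg.isAlgebraic x)

end general

end Pool.Agent.N115.JU
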