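import Pool.Agent.N115.JU.Van
import Pool.Agent.Y221.FQ.Cnv

/-!
Punctured discs and entire curves in the images, under finite morphisms, of finite covers of closed
subsets of the varieties of powers of values of polynomials.
-/

set_option autoImplicit false
set_option linter.unusedSectionVars false

open FF Polynomial Filter Topology Set Metric

namespace Pool.Agent.N115.JU

open Pool.Agent.W602.GT
open Pool.Agent.TH466.QG (trdeg_alg StronglyGeneral)
open Pool.Agent.Y221.FQ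
open Pool.Agent.N115.JS
open Pool.Agent.N115.AN (Bd all_or_ruled alg_pow' picard_of' strong_of')
open Pool.Agent.Y190.BV (not_gt_ruled)
open Pool.Agent.Y190.PH (AllSimple)
open Pool.Agent.N441.AN8 (gen0)
open Pool.Agent.Y221.PD (PseudoPicard PseudoAbelian PseudoTorus EssentialDisc)
open Pool.Agent.Y221.BD (PseudoBrody)
open Pool.Agent.Y190.AN (MK exD cl cl_eq_zero eval_mero coord_an)
open Pool.Agent.W603.BP (mem_disc PCurve)

variable {m' n' M : ℕ} {ι κ μ : Type}
  {Ψ : κ → MvPolynomial (Fin (m' + 1)) ℂ} {F : ι → MvPolynomial (Fin (n' + 1)) ℂ}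
  {Φ : μ → MvPolynomial (Fin (M + 1)) ℂ} {G : Fin (M + 1) → MvPolynomial (Fin (m' + 1)) ℂ}
  {B : Fin (n' + 1) → MvPolynomial (Fin (m' + 1)) ℂ} {n m : ℕ} {a : Fin (n' + 1) → ℂ}

/-- **All conditions or lines.** -/
theorem all_or_vanL (hm : 2 ≤ m) {r : ℕ} (hr : 1 ≤ r) (hN : Bd r n n')
    (ha : Function.Injective a) (hF : ∀ e, IsForm (F e)) (hS : AllSimple a n m F)
    (hΨ : ∀ e, IsForm (Ψ e)) (hB : Mor Ψ F B) (hG : Mor Ψ Φ G) (hon : Onto Ψ Φ G)
    (hfib : FibresLe Ψ G r) {K : Type} [Field K] [Algebra ℂ K] {w : ℕ} {z : Fin (M + 1) → K}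
    (hw : 1 ≤ w) (hz : SubVar Φ K w z) :
    (GeneralType ℂ K w ∧ StronglyGeneral ℂ z ∧ PseudoPicard z ∧ PseudoBrody z ∧
      PseudoAbelian z ∧ PseudoTorus z) ∨
      ∀ H : MvPolynomial (Fin (M + 1)) ℂ, IsForm H →
        (∀ x ∈ Cone Ψ, im B x ∈ SpLine F → val (im G x) H = 0) → val z H = 0 := by
  obtain ⟨E, i1, i2, i3, i4, i5, u, i0, c, hrk, hu0, huΨ, hc0, hcz, htop⟩ :=
    lift_point hΨ hG hon hfib hz.ne hz.mem
  have hu : u ≠ 0 := by
    intro h0
    rw [h0] at hu0
    exact zero_ne_one hu0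
  obtain ⟨hy, hyF⟩ := hB.mem hu huΨ
  have halg := lift_alg (G := G) hΨ hB hz.gen hu0 huΨ hc0 hcz htop
  have htr : Algebra.trdeg ℂ E = w := by rw [trdeg_alg (E := K), hz.dim]
  have htr1 : Algebra.trdeg ℂ (coords ℂ (im B u)) = w := by
    rw [← htr, trdeg_alg (k := ℂ) (E := coords ℂ (im B u)) (K := E)]
  have hN1 : 4 * n + (n + 1) ^ 2 < 2 * (n' + 1) := by
    have h1 : n + 1 ≤ n + 2 * r - 1 := by omega
    have h2 : (n + 1) ^ 2 ≤ (n + 2 * r - 1) ^ 2 := Nat.pow_le_pow_left h1 2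
    have h3 := hN.1
    omega
  obtain ⟨y1, P, hd, h⟩ := pt_data hm hN1 ha hF hS hy hyF htr1
  rcases h with h | h
  · left
    have hess : Algebra.EssFiniteType ℂ K := essFinite hz.gen
    have hessE : Algebra.EssFiniteType ℂ E := Algebra.EssFiniteType.comp ℂ K E
    have hfd : FiniteDimensional (coords ℂ (im B u)) E := by
      have h3 : Algebra.EssFiniteType (coords ℂ (im B u)) E :=
        Algebra.EssFiniteType.of_comp ℂ (coords ℂ (im B u)) E
      obtain ⟨s, hs⟩ := IntermediateField.fg_top (coords ℂ (im B u)) E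
      have h1 : FiniteDimensional (coords ℂ (im B u))
          (IntermediateField.adjoin (coords ℂ (im B u)) (s : Set E)) :=
        IntermediateField.finiteDimensional_adjoin fun x _ => (halg.isAlgebraic x).isIntegral
      rw [hs] at h1
      exact h1.equiv IntermediateField.topEquiv.toLinearEquiv
    rcases all_or_ruled alg_pow' picard_of' strong_of' hm hr hw hN ha htr1 hd.ne hd.gen hd.deg
      hd.val hd.fac with h1 | ⟨C, t, ht, htt⟩
    · exact h1 E K hrk M z hz.ne hz.gen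
    · exact absurd h (not_gt_ruled ht htt w)
  · exact Or.inr fun H hHf hH => val_prop hcz hHf (van_imL hB hH hu0 huΨ h)

/-- **The Zariski closure of a punctured disc with an essential singularity.** -/
theorem disc_point (hΦ : ∀ e, IsForm (Φ e)) {f : ℂ → Fin (M + 1) → ℂ} (hf : Essential Φ f) :
    ∃ (K : Type) (_ : Field K) (_ : Algebra ℂ K) (w : ℕ) (z : Fin (M + 1) → K), 1 ≤ w ∧
      SubVar Φ K w z ∧ ∀ H : MvPolynomial (Fin (M + 1)) ℂ, IsForm H →
        (val z H = 0 ↔ ∀ t ∈ ball (0 : ℂ) 1 \ {0}, val (f t) H = 0) := by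
  classical
  have hPC : PCurve (∅ : Set (Fin (M + 1))) (fun e : Empty => (e.elim : MvPolynomial (Fin (M + 1)) ℂ)) f :=
    ⟨differentiableOn_pi.2 hf.hol, fun z hz => ⟨(hf.mem z hz).1, fun j hj => absurd hj
      (Set.notMem_empty j), fun e => e.elim⟩⟩
  have hM : ∀ i, MeromorphicOn (fun z => f z⁻¹ i) (exD 1 one_pos).U := fun i z hz =>
    (coord_an hPC i z hz).meromorphicAt
  obtain ⟨z, hzdef⟩ : ∃ z : Fin (M + 1) → MK (exD 1 one_pos), z = fun i => cl _ (hM i) :=
    ⟨_, rfl⟩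
  have hvz : ∀ H : MvPolynomial (Fin (M + 1)) ℂ, val z H = 0 ↔
      ∀ t ∈ ball (0 : ℂ) 1 \ {0}, val (f t) H = 0 := by
    intro H
    rw [hzdef, Pool.Agent.Y190.AN.val_cl H hM (eval_mero H hM), cl_eq_zero]
    have hev : ∀ t, val (f t) H = MvPolynomial.eval (f t) H := fun t => by
      unfold Pool.Agent.W602.GT.val
      rw [MvPolynomial.aeval_eq_eval]
    constructor
    · intro h t ht
      have ht' : t⁻¹ ∈ (exD 1 one_pos).U := Pool.Agent.Y190.AN.inv_mem_ext (mem_disc.1 ht)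
      have h3 : AnalyticAt ℂ (fun v => MvPolynomial.eval (fun i => f v⁻¹ i) H) t⁻¹ := by
        simp only [MvPolynomial.eval_eq']
        apply Finset.analyticAt_fun_sum
        intro α _
        apply AnalyticAt.fun_mul analyticAt_const
        apply Finset.analyticAt_fun_prod
        intro j _
        exact (coord_an hPC j _ ht').fun_pow _
      have h4 := (h3.frequently_zero_iff_eventually_zero.1 (h _ ht').frequently).self_of_nhds
      simp only [inv_inv] at h4
      rw [hev]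
      exact h4
    · intro h t ht
      have h1 : ∀ᶠ w in 𝓝 t, w ∈ (exD 1 one_pos).U := (exD 1 one_pos).op.mem_nhds ht
      filter_upwards [nhdsWithin_le_nhds h1] with w hw
      have h2 := h w⁻¹ (ext_inv hw)
      rw [hev] at h2
      exact h2
  have hzj : ∀ (b : ℂ) i j, z i = algebraMap ℂ _ b * z j →
      ∀ t ∈ ball (0 : ℂ) 1 \ {0}, f t i = b * f t j := by
    intro b i j h t ht
    have h1 := (hvz (MvPolynomial.X i - MvPolynomial.C b * MvPolynomial.X j)).1 (by
      unfold Pool.Agent.W602.GT.val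
      rw [map_sub, map_mul, MvPolynomial.aeval_X, MvPolynomial.aeval_X, MvPolynomial.aeval_C, h,
        sub_self]) t ht
    unfold Pool.Agent.W602.GT.val at h1
    rw [map_sub, map_mul, MvPolynomial.aeval_X, MvPolynomial.aeval_X, MvPolynomial.aeval_C,
      sub_eq_zero] at h1
    exact h1
  have hpt : ((1 / 2 : ℝ) : ℂ) ∈ ball (0 : ℂ) 1 \ {0} := by
    refine ⟨?_, ?_⟩
    · rw [mem_ball_zero_iff, Complex.norm_real]
      norm_num
    · simp
  have hz : z ≠ 0 := by
    intro h0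
    apply (hf.mem _ hpt).1
    funext i
    have h1 := hzj 0 i i (by rw [h0]; simp) _ hpt
    rw [h1, zero_mul]
    rfl
  obtain ⟨i0, hi0'⟩ := Function.ne_iff.1 hz
  have hi0 : z i0 ≠ 0 := hi0'
  obtain ⟨z1, hz1, hgen⟩ := gen0 (k := ℂ) z i0 hi0
  have hz10 : z1 ≠ 0 := by
    intro h0
    have h1 := hz1 i0
    rw [h0, div_self hi0] at h1
    exact zero_ne_one ((ZeroMemClass.coe_zero _).symm.trans h1)
  have hval1 : ∀ H' : MvPolynomial (Fin (M + 1)) ℂ, IsForm H' → (val z1 H' = 0 ↔ val z H' = 0) := by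
    rintro H' ⟨d, hd⟩
    have h1 := val_map (coords ℂ z).val H' z1
    have h2 : (fun i => (coords ℂ z).val (z1 i)) = fun i => (z i0)⁻¹ * z i := by
      funext i
      have h3 : (coords ℂ z).val (z1 i) = (z1 i : MK (exD 1 one_pos)) := rfl
      rw [h3, hz1 i, div_eq_mul_inv, mul_comm]
    rw [h2, val_smul hd] at h1
    constructor
    · intro h0
      rw [h0, map_zero] at h1
      exact (mul_eq_zero.1 h1.symm).resolve_left (pow_ne_zero _ (inv_ne_zero hi0))
    · intro h0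
      rw [h0, mul_zero] at h1
      exact (map_eq_zero _).1 h1
  obtain ⟨w, hw⟩ := dim_of_gen hgen
  refine ⟨coords ℂ z, inferInstance, inferInstance, w, z1, ?_, ⟨hz10, fun e =>
    (hval1 _ (hΦ e)).2 ((hvz _).2 fun t ht => (hf.mem t ht).2 e), hgen, hw⟩,
    fun H hH => (hval1 H hH).trans (hvz H)⟩
  · -- positive dimension
    by_contra hcon
    have hw0 : w = 0 := by omega
    have hbot : coords ℂ z = ⊥ := bot_of_trdeg _ (by rw [hw, hw0]; simp)
    have hc : ∀ i, ∃ b : ℂ, z i = algebraMap ℂ _ b * z i0 := by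
      intro i
      have h1 : z i / z i0 ∈ coords ℂ z :=
        IntermediateField.subset_adjoin ℂ _ ⟨i, i0, hi0, rfl⟩
      rw [hbot, IntermediateField.mem_bot] at h1
      obtain ⟨b, hb⟩ := h1
      exact ⟨b, by rw [hb, div_mul_cancel₀ _ hi0]⟩
    choose b hb using hc
    apply hf.ess
    refine ⟨fun _ => b, differentiableOn_const _, fun _ _ h0 => ?_, fun t ht => ⟨f t i0, ?_⟩⟩
    · apply (hf.mem _ hpt).1
      funext i
      have hb0 : b i = 0 := congrFun h0 i
      rw [hzj _ _ _ (hb i) _ hpt, hb0, zero_mul]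
      rfl
    · funext i
      rw [hzj _ _ _ (hb i) _ ht, Pi.smul_apply, smul_eq_mul, mul_comm]

/-- **Punctured discs.** -/
theorem essential_vanL (hm : 2 ≤ m) {r : ℕ} (hr : 1 ≤ r) (hN : Bd r n n')
    (ha : Function.Injective a) (hF : ∀ e, IsForm (F e)) (hS : AllSimple a n m F)
    (hΦ : ∀ e, IsForm (Φ e)) (hΨ : ∀ e, IsForm (Ψ e)) (hB : Mor Ψ F B) (hG : Mor Ψ Φ G)
    (hon : Onto Ψ Φ G) (hfib : FibresLe Ψ G r) {f : ℂ → Fin (M + 1) → ℂ} (hf : Essential Φ f)
    {H : MvPolynomial (Fin (M + 1)) ℂ} (hHf : IsForm H)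
    (hH : ∀ x ∈ Cone Ψ, im B x ∈ SpLine F → val (im G x) H = 0) {t0 : ℂ}
    (ht0 : t0 ∈ ball (0 : ℂ) 1 \ {0}) : val (f t0) H = 0 := by
  obtain ⟨K, _, _, w, z, hw, hz, hzf⟩ := disc_point hΦ hf
  rcases all_or_vanL hm hr hN ha hF hS hΨ hB hG hon hfib hw hz with h | h
  · exfalso
    obtain ⟨R, hR, hR0, hRf⟩ := h.2.2.1
    apply hR0
    rw [hzf R hR]
    intro t ht
    have hev : val (f t) R = MvPolynomial.eval (f t) R := by
      unfold Pool.Agent.W602.GT.val
      rw [MvPolynomial.aeval_eq_eval]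
    rw [hev]
    refine hRf f ⟨hf.hol, fun t ht => (hf.mem t ht).1, fun H' hH' h0 t ht => ?_, hf.ess⟩ t ht
    have h1 := (hzf H' hH').1 h0 t ht
    unfold Pool.Agent.W602.GT.val at h1
    rw [MvPolynomial.aeval_eq_eval] at h1
    exact h1
  · exact (hzf H hHf).1 (h H hHf hH) t0 ht0

end Pool.Agent.N115.JU
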