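import Pool.Agent.N115.JU.Hol
import Pool.Agent.Y221.FQ.Top
import Pool.Agent.Y460.KB.Main

/-!
The special sets of the images, under finite morphisms, of closed subsets of the varieties of powers
of values of polynomials and of their finite covers.
-/

set_option autoImplicit false
set_option linter.unusedSectionVars false

open FF Polynomial Metric

namespace Pool.Agent.N115.JU

open Pool.Agent.W602.GT
open Pool.Agent.TH466.QG (trdeg_alg StronglyGeneral)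
open Pool.Agent.Y221.FQ
open Pool.Agent.N115.AN (Bd)
open Pool.Agent.Y190.BV (intp intp_eval intp_natDegree sub_ext)
open Pool.Agent.Y190.PH (AllSimple simple_all NoLines)
open Pool.Agent.Y221.PD (PseudoPicard PseudoAbelian PseudoTorus)
open Pool.Agent.Y221.BD (PseudoBrody)
open Pool.Agent.W619.PQ (IsUniruled)

section general

variable {k : Type} [Field k] {m' n' M : ℕ} {ι κ μ : Type}
  {Ψ : κ → MvPolynomial (Fin (m' + 1)) k} {F : ι → MvPolynomial (Fin (n' + 1)) k}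
  {Φ : μ → MvPolynomial (Fin (M + 1)) k}
  {B : Fin (n' + 1) → MvPolynomial (Fin (m' + 1)) k} {n m : ℕ} {a : Fin (n' + 1) → k}

/-- The image under `G` of the inverse image under `B` of the closure of the union of the lines in
`{F = 0}`. -/
def CovLine (Ψ : κ → MvPolynomial (Fin (m' + 1)) k) (F : ι → MvPolynomial (Fin (n' + 1)) k)
    (B : Fin (n' + 1) → MvPolynomial (Fin (m' + 1)) k)
    (G : Fin (M + 1) → MvPolynomial (Fin (m' + 1)) k) : Set (Fin (M + 1) → k) :=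
  im G '' {x | x ∈ Cone Ψ ∧ im B x ∈ SpLine F}

theorem im_Xk {K : Type} [Field K] [Algebra k K] (x : Fin (n' + 1) → K) :
    im (fun i => (MvPolynomial.X i : MvPolynomial (Fin (n' + 1)) k)) x = x := by
  funext i
  exact MvPolynomial.aeval_X _ i

theorem mor_Xk : Mor F F fun i => MvPolynomial.X i :=
  ⟨⟨1, le_rfl, fun j => MvPolynomial.isHomogeneous_X k j⟩, fun x hx => by rw [im_Xk]; exact hx⟩

theorem cov_X {G : Fin (M + 1) → MvPolynomial (Fin (n' + 1)) k} :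
    CovLine F F (fun i => MvPolynomial.X i) G = im G '' SpLine F := by
  ext q
  constructor
  · rintro ⟨x, ⟨hx, hBx⟩, rfl⟩
    rw [im_Xk] at hBx
    exact ⟨x, hBx, rfl⟩
  · rintro ⟨x, hx, rfl⟩
    exact ⟨x, ⟨hx.1, by rw [im_Xk]; exact hx⟩, rfl⟩

variable [IsAlgClosed k] [CharZero k]

/-- **Covers and their images.** -/
theorem alg_coverL {G : Fin (M + 1) → MvPolynomial (Fin (m' + 1)) k} (hm : 2 ≤ m) {r : ℕ}
    (hr : 1 ≤ r) (hN : 4 * n + (n + 2 * r - 1) ^ 2 < 2 * (n' + 1)) (ha : Function.Injective a)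
    (hF : ∀ e, IsForm (F e)) (hS : AllSimple a n m F) (hΨ : ∀ e, IsForm (Ψ e)) (hB : Mor Ψ F B)
    (hG : Mor Ψ Φ G) (hon : Onto Ψ Φ G) (hfib : FibresLe Ψ G r) :
    SpAlg Φ ⊆ CovLine Ψ F B G := by
  rintro q ⟨hq, h⟩
  obtain ⟨x, hx, hBx, hxq⟩ := closed_imL hΨ hB hG hq.1 fun H hH hx => h H hH
    fun K _ _ w z hw hz hgt => sub_vanL hm hr hN ha hF hS hΨ hB hG hon hfib hw hz hgt hH hx
  exact ⟨x, ⟨hx, hBx⟩, hxq⟩

theorem im_line_sub {G : Fin (M + 1) → MvPolynomial (Fin (n' + 1)) k} (hF : ∀ e, IsForm (F e))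
    (hG : Mor F Φ G) : im G '' SpLine F ⊆ SpGm Φ := by
  have hinf : Infinite k := inferInstance
  rintro _ ⟨x, hx, rfl⟩
  exact spgm_im hF hG (line_sub_gm F hx)

/-- **Images.** -/
theorem alg_imL {G : Fin (M + 1) → MvPolynomial (Fin (n' + 1)) k} (hm : 2 ≤ m) {r : ℕ}
    (hr : 1 ≤ r) (hN : 4 * n + (n + 2 * r - 1) ^ 2 < 2 * (n' + 1)) (ha : Function.Injective a)
    (hF : ∀ e, IsForm (F e)) (hS : AllSimple a n m F) (hΦ : ∀ e, IsForm (Φ e))
    (hG : Mor F Φ G) (hon : Onto F Φ G) (hfib : FibresLe F G r) :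
    SpAlg Φ = SpGm Φ ∧ SpGm Φ = im G '' SpLine F := by
  have h3 := alg_coverL (B := fun i => MvPolynomial.X i) hm hr hN ha hF hS hF mor_Xk hG hon hfib
  rw [cov_X] at h3
  have h5 := im_line_sub hF hG
  have h7 : SpGm Φ ⊆ SpAlg Φ := gm_sub_alg hΦ
  exact ⟨Set.Subset.antisymm (h3.trans h5) h7, Set.Subset.antisymm (h7.trans h3) h5⟩

/-- the polynomial of a point -/
theorem poly_of (hm : 2 ≤ m) (hn : n ≤ n') (ha : Function.Injective a) (hS : AllSimple a n m F)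
    {E : Type} [Field E] [Algebra k E] {y : Fin (n' + 1) → E} (hy : y ≠ 0)
    (hyF : ∀ e, val y (F e) = 0) :
    ∃ P : E[X], P.natDegree ≤ n ∧ (∀ i, y i ^ m = P.eval (algebraMap k E (a i))) ∧
      ∀ q : E[X], 2 ≤ q.natDegree → ¬ q ^ m ∣ P := by
  have hs := simple_all (by omega) hn ha hS hy hyF
  have hyb := sub_ext (hS.sub hn ha) hy hyF
  have hev : ∀ i, (intp a hn (fun i => y i ^ m)).eval (algebraMap k E (a i)) = y i ^ m :=
    intp_eval ha hn m hyb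
  refine ⟨intp a hn (fun i => y i ^ m), intp_natDegree ha hn _, fun i => (hev i).symm,
    fun q hq h => ?_⟩
  have := hs q h
  omega

theorem n_le {r : ℕ} (hN : 4 * n + (n + 2 * r - 1) ^ 2 < 2 * (n' + 1)) (hr : 1 ≤ r) : n ≤ n' := by
  have h1 : n + 1 ≤ n + 2 * r - 1 := by omega
  have h2 : (n + 1) ^ 2 ≤ (n + 2 * r - 1) ^ 2 := Nat.pow_le_pow_left h1 2
  nlinarith

/-- **Subvarieties of the images.** -/
theorem sub_tfae {G : Fin (M + 1) → MvPolynomial (Fin (n' + 1)) k} (hm : 2 ≤ m) {r : ℕ}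
    (hr : 1 ≤ r) (hN : 4 * n + (n + 2 * r - 1) ^ 2 < 2 * (n' + 1)) (ha : Function.Injective a)
    (hF : ∀ e, IsForm (F e)) (hS : AllSimple a n m F)
    (hG : Mor F Φ G) (hon : Onto F Φ G) (hfib : FibresLe F G r) {K : Type} [Field K] [Algebra k K]
    {w : ℕ} {z : Fin (M + 1) → K} (hw : 1 ≤ w) (hz : SubVar Φ K w z) :
    [GeneralType k K w, KodGe k K w (fun _ => False) 0, Psef k K w (fun _ => False),
      ¬ IsUniruled k K w].TFAE := by
  obtain ⟨E, i1, i2, i3, i4, i5, u, i0, c, hrk, hu0, huF, hc0, hcz, htop⟩ :=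
    lift_point hF hG hon hfib hz.ne hz.mem
  have hu : u ≠ 0 := by
    intro h0
    rw [h0] at hu0
    exact zero_ne_one hu0
  have hgen : coords k u = ⊤ := lift_gen hz.gen hu0 hc0 hcz htop
  have htr : Algebra.trdeg k E = w := by rw [trdeg_alg (E := K), hz.dim]
  obtain ⟨P, hdeg, hval, hfac⟩ := poly_of hm (n_le hN hr) ha hS hu huF
  have h := Pool.Agent.N115.IM.below_tfae (L := K) hm hr hw hN ha htr hu hgen hdeg hval hfac hrk
  have h1 : ¬ KodGe k K w (fun _ => False) 0 ↔ ¬ GeneralType k K w := h.out 0 3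
  have h2 : ¬ Psef k K w (fun _ => False) ↔ ¬ GeneralType k K w := h.out 1 3
  have h3 : IsUniruled k K w ↔ ¬ GeneralType k K w := h.out 2 3
  tfae_have 1 ↔ 2 := (not_iff_not.1 h1).symm
  tfae_have 1 ↔ 3 := (not_iff_not.1 h2).symm
  tfae_have 1 ↔ 4 := by rw [h3, not_not]
  tfae_finish

/-- subvarieties outside the algebraic special set -/
theorem strong_ofk (hΦ : ∀ e, IsForm (Φ e)) {L : Type} [Field L] [Algebra k L] {w : ℕ}
    {z : Fin (M + 1) → L} (hw : 1 ≤ w) (hz : SubVar Φ L w z) (h : ¬ VarPts k z ⊆ SpAlg Φ) :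
    GeneralType k L w ∧ StronglyGeneral k z := by
  have hT : ∃ H : MvPolynomial (Fin (M + 1)) k, IsForm H ∧ (∀ (K : Type) [Field K] [Algebra k K] (w : ℕ)
      (y : Fin (M + 1) → K), 1 ≤ w → SubVar Φ K w y → ¬ GeneralType k K w → val y H = 0) ∧
      val z H ≠ 0 := by
    by_contra hcon
    push Not at hcon
    refine h fun x hx => ⟨⟨hx.1, fun e => hx.2 _ (hΦ e) (hz.mem e)⟩, fun H hH hPH =>
      hx.2 H hH (hcon H hH hPH)⟩
  obtain ⟨H, hH, hPH, hne⟩ := hT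
  constructor
  · by_contra hgt
    exact hne (hPH L w z hw hz hgt)
  · refine ⟨H, hH, hne, fun E _ _ w' z' hz' hne' hw' htr => ?_⟩
    by_contra hgt
    exact hne' (hPH E w' z' hw' ⟨hz'.ne, fun e => hz'.spec _ (hΦ e) (hz.mem e), hz'.gen, htr⟩ hgt)

end general

section cx

variable {m' n' M : ℕ} {ι κ μ : Type}
  {Ψ : κ → MvPolynomial (Fin (m' + 1)) ℂ} {F : ι → MvPolynomial (Fin (n' + 1)) ℂ}
  {Φ : μ → MvPolynomial (Fin (M + 1)) ℂ}
  {B : Fin (n' + 1) → MvPolynomial (Fin (m' + 1)) ℂ} {n m : ℕ} {a : Fin (n' + 1) → ℂ}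

/-- **Covers and their images: the special sets.** -/
theorem special_coverL {G : Fin (M + 1) → MvPolynomial (Fin (m' + 1)) ℂ} (hm : 2 ≤ m) {r : ℕ}
    (hr : 1 ≤ r) (hN : Bd r n n') (ha : Function.Injective a)
    (hF : ∀ e, IsForm (F e)) (hS : AllSimple a n m F) (hΦ : ∀ e, IsForm (Φ e))
    (hΨ : ∀ e, IsForm (Ψ e)) (hB : Mor Ψ F B)
    (hG : Mor Ψ Φ G) (hon : Onto Ψ Φ G) (hfib : FibresLe Ψ G r) :
    SpAlg Φ ⊆ CovLine Ψ F B G ∧ SpP Φ ⊆ CovLine Ψ F B G ∧ SpH Φ ⊆ CovLine Ψ F B G := by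
  have hP : SpP Φ ⊆ CovLine Ψ F B G := by
    rintro q ⟨hq, h⟩
    obtain ⟨x, hx, hBx, hxq⟩ := closed_imL hΨ hB hG hq.1 fun H hH hx => h H hH
      fun f hf t ht => essential_vanL hm hr hN ha hF hS hΦ hΨ hB hG hon hfib hf hH hx ht
    exact ⟨x, ⟨hx, hBx⟩, hxq⟩
  exact ⟨alg_coverL hm hr hN.1 ha hF hS hΨ hB hG hon hfib, hP, h_sub_p.trans hP⟩

/-- **Images: the special sets.** -/
theorem special_imL {G : Fin (M + 1) → MvPolynomial (Fin (n' + 1)) ℂ} (hm : 2 ≤ m) {r : ℕ}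
    (hr : 1 ≤ r) (hN : Bd r n n') (ha : Function.Injective a)
    (hF : ∀ e, IsForm (F e)) (hS : AllSimple a n m F) (hΦ : ∀ e, IsForm (Φ e))
    (hG : Mor F Φ G) (hon : Onto F Φ G) (hfib : FibresLe F G r) :
    SpAlg Φ = im G '' SpLine F ∧ SpP Φ = im G '' SpLine F ∧ SpH Φ = im G '' SpLine F ∧
      SpGm Φ = im G '' SpLine F := by
  obtain ⟨h1, h2, h3⟩ := special_coverL (B := fun i => MvPolynomial.X i) hm hr hN ha hF hS hΦ hF
    mor_Xk hG hon hfib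
  rw [cov_X] at h1 h2 h3
  have h5 := im_line_sub hF hG
  have h6 : SpGm Φ ⊆ SpH Φ := gm_sub_h
  have h7 : SpGm Φ ⊆ SpAlg Φ := gm_sub_alg hΦ
  have h8 : SpH Φ ⊆ SpP Φ := h_sub_p
  exact ⟨Set.Subset.antisymm h1 (h5.trans h7), Set.Subset.antisymm h2 ((h5.trans h6).trans h8),
    Set.Subset.antisymm h3 (h5.trans h6), Set.Subset.antisymm (h7.trans h1) h5⟩

/-- **Hyperbolicity of the images of covers.** -/
theorem hyp_coverL {G : Fin (M + 1) → MvPolynomial (Fin (m' + 1)) ℂ} (hm : 2 ≤ m) {r : ℕ}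
    (hr : 1 ≤ r) (hN : Bd r n n') (ha : Function.Injective a)
    (hF : ∀ e, IsForm (F e)) (hS : AllSimple a n m F) (hΦ : ∀ e, IsForm (Φ e))
    (hΨ : ∀ e, IsForm (Ψ e)) (hB : Mor Ψ F B)
    (hG : Mor Ψ Φ G) (hon : Onto Ψ Φ G) (hfib : FibresLe Ψ G r) (hL : NoLines F) :
    (∀ f, ¬ Essential Φ f) ∧ (∀ f, ¬ Entire Φ f) ∧ AllGeneral Φ := by
  have hx : ∀ x ∈ Cone Ψ, im B x ∈ SpLine F →
      val (im G x) (1 : MvPolynomial (Fin (M + 1)) ℂ) = 0 := by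
    intro x _ hBx
    rw [Pool.Agent.Y190.PH.spLine_empty hL] at hBx
    exact absurd hBx (Set.notMem_empty _)
  have hform : IsForm (1 : MvPolynomial (Fin (M + 1)) ℂ) := ⟨0, MvPolynomial.isHomogeneous_one _ _⟩
  have hone : ∀ {E : Type} [Field E] [Algebra ℂ E] (x : Fin (M + 1) → E),
      val x (1 : MvPolynomial (Fin (M + 1)) ℂ) ≠ 0 := by
    intro E _ _ x h
    have h2 : val x (1 : MvPolynomial (Fin (M + 1)) ℂ) = 1 := map_one _
    rw [h2] at h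
    exact one_ne_zero h
  have hpt : ((1 / 2 : ℝ) : ℂ) ∈ ball (0 : ℂ) 1 \ {0} := by
    refine ⟨?_, ?_⟩
    · rw [mem_ball_zero_iff, Complex.norm_real]
      norm_num
    · simp
  have hE : ∀ f, ¬ Essential Φ f := fun f hf => hone _
    (essential_vanL hm hr hN ha hF hS hΦ hΨ hB hG hon hfib hf hform hx hpt)
  refine ⟨hE, fun f hf => hE _ (essential_of_entire hf), ?_⟩
  intro K _ _ w z hw hz
  by_contra hgt
  exact hone _ (sub_vanL hm hr hN.1 ha hF hS hΨ hB hG hon hfib hw hz hgt hform hx)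

/-- **Hyperbolicity of images.** -/
theorem hyp_imL {G : Fin (M + 1) → MvPolynomial (Fin (n' + 1)) ℂ} (hm : 2 ≤ m) {r : ℕ}
    (hr : 1 ≤ r) (hN : Bd r n n') (ha : Function.Injective a)
    (hF : ∀ e, IsForm (F e)) (hS : AllSimple a n m F) (hΦ : ∀ e, IsForm (Φ e))
    (hG : Mor F Φ G) (hon : Onto F Φ G) (hfib : FibresLe F G r) :
    [∀ f, ¬ Entire Φ f, ∀ f, ¬ Essential Φ f, ∀ P, ¬ GmCurve Φ P, AllGeneral Φ,
      Pool.Agent.Y460.KB.AllSub (fun K _ _ w => KodGe ℂ K w (fun _ => False) 0) Φ,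
      Pool.Agent.Y460.KB.AllSub (fun K _ _ w => Psef ℂ K w (fun _ => False)) Φ,
      Pool.Agent.Y460.KB.AllSub (fun K _ _ w => ¬ IsUniruled ℂ K w) Φ, NoLines F].TFAE := by
  have h0 : NoLines F → (∀ f, ¬ Essential Φ f) ∧ (∀ f, ¬ Entire Φ f) ∧ AllGeneral Φ :=
    hyp_coverL (B := fun i => MvPolynomial.X i) hm hr hN ha hF hS hΦ hF mor_Xk hG hon hfib
  have key : ∀ (K : Type) [Field K] [Algebra ℂ K] (w : ℕ) (z : Fin (M + 1) → K), 1 ≤ w →
      SubVar Φ K w z → [GeneralType ℂ K w, KodGe ℂ K w (fun _ => False) 0,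
        Psef ℂ K w (fun _ => False), ¬ IsUniruled ℂ K w].TFAE :=
    fun K _ _ w z hw hz => sub_tfae hm hr hN.1 ha hF hS hG hon hfib hw hz
  tfae_have 8 → 2 := fun h => (h0 h).1
  tfae_have 2 → 1 := fun h f hf => h _ (essential_of_entire hf)
  tfae_have 1 → 3 := fun h P hP => h _ (entire_of_gm hP)
  tfae_have 8 → 4 := fun h => (h0 h).2.2
  tfae_have 4 → 3 := by
    intro h P hP
    have h1 : (fun i => (P i).eval 1) ∈ SpGm Φ :=
      ⟨⟨hP.ne 1 one_ne_zero, hP.mem 1 one_ne_zero⟩, fun H _ hH => hH P hP 1 one_ne_zero⟩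
    have h2 := (gm_sub_alg hΦ h1).2 1 ⟨0, MvPolynomial.isHomogeneous_one _ _⟩
      fun K _ _ w y hw hy hgt => absurd (h K w y hw hy) hgt
    have h3 : val (fun i => (P i).eval 1) (1 : MvPolynomial (Fin (M + 1)) ℂ) = 1 := map_one _
    rw [h3] at h2
    exact one_ne_zero h2
  tfae_have 3 → 8 := by
    intro h p q hpq
    have h1 : (1 : ℂ) • p + (0 : ℂ) • q ∈ SpLine F :=
      ⟨⟨Pool.Agent.Y190.PH.line_ne hpq one_ne_zero, fun e => hpq.2 1 0 e⟩,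
        fun G _ hG => hG p q hpq 1 0⟩
    have h2 : (1 : ℂ) • p + (0 : ℂ) • q ∈ SpGm F := line_sub_gm F h1
    have h3 : ∀ P, ¬ GmCurve F P := fun P hP => h _ (gm_im hF hG hP)
    rw [gm_empty h3] at h2
    exact h2
  tfae_have 4 ↔ 5 := ⟨fun h K _ _ w z hw hz => ((key K w z hw hz).out 0 1).1 (h K w z hw hz),
    fun h K _ _ w z hw hz => ((key K w z hw hz).out 0 1).2 (h K w z hw hz)⟩
  tfae_have 4 ↔ 6 := ⟨fun h K _ _ w z hw hz => ((key K w z hw hz).out 0 2).1 (h K w z hw hz),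
    fun h K _ _ w z hw hz => ((key K w z hw hz).out 0 2).2 (h K w z hw hz)⟩
  tfae_have 4 ↔ 7 := ⟨fun h K _ _ w z hw hz => ((key K w z hw hz).out 0 3).1 (h K w z hw hz),
    fun h K _ _ w z hw hz => ((key K w z hw hz).out 0 3).2 (h K w z hw hz)⟩
  tfae_finish

/-- for `n < m` there are no lines -/
theorem noLines_of_lt (hm : 2 ≤ m) {r : ℕ} (hr : 1 ≤ r)
    (hN : 4 * n + (n + 2 * r - 1) ^ 2 < 2 * (n' + 1)) (ha : Function.Injective a)
    (hF : ∀ e, IsForm (F e)) (hS : AllSimple a n m F) (hnm : n < m) : NoLines F := by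
  have hN1 : 4 * n + (n + 1) ^ 2 < 2 * (n' + 1) := by
    have h1 : n + 1 ≤ n + 2 * r - 1 := by omega
    have h2 : (n + 1) ^ 2 ≤ (n + 2 * r - 1) ^ 2 := Nat.pow_le_pow_left h1 2
    omega
  have h := Pool.Agent.Y460.KB.main hm hN1 ha hF hS
  have h1 : NoLines F ↔ Pool.Agent.Y460.KB.AllSub (fun K _ _ _ => ¬ Ruled ℂ K) F := h.out 2 6
  rw [h1]
  intro K _ _ w y hw hy
  obtain ⟨P, hdeg, hval, hfac⟩ := poly_of hm (n_le hN hr) ha hS hy.ne hy.mem
  exact Pool.Agent.N115.IM.not_ruled hm hw hN1 ha hy.dim hy.ne hy.gen hdeg hval (Or.inr (by omega))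

/-- **Subvarieties of the images of covers.** -/
theorem gen_coverL {G : Fin (M + 1) → MvPolynomial (Fin (m' + 1)) ℂ} (hm : 2 ≤ m) {r : ℕ}
    (hr : 1 ≤ r) (hN : Bd r n n') (ha : Function.Injective a)
    (hF : ∀ e, IsForm (F e)) (hS : AllSimple a n m F) (hΦ : ∀ e, IsForm (Φ e))
    (hΨ : ∀ e, IsForm (Ψ e)) (hB : Mor Ψ F B)
    (hG : Mor Ψ Φ G) (hon : Onto Ψ Φ G) (hfib : FibresLe Ψ G r) {K : Type} [Field K]
    [Algebra ℂ K] {w : ℕ} {z : Fin (M + 1) → K} (hw : 1 ≤ w) (hz : SubVar Φ K w z)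
    (h : ¬ VarPts ℂ z ⊆ CovLine Ψ F B G) :
    GeneralType ℂ K w ∧ StronglyGeneral ℂ z ∧ PseudoPicard z ∧ PseudoBrody z ∧
      PseudoAbelian z ∧ PseudoTorus z := by
  rcases all_or_vanL hm hr hN ha hF hS hΨ hB hG hon hfib hw hz with h1 | h1
  · exact h1
  · exfalso
    apply h
    intro q hq
    obtain ⟨x, hx, hBx, hxq⟩ := closed_imL hΨ hB hG hq.1 fun H hH hx => hq.2 H hH (h1 H hH hx)
    exact ⟨x, ⟨hx, hBx⟩, hxq⟩

/-- **Components of the images.** -/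
theorem comp_tfae {G : Fin (M + 1) → MvPolynomial (Fin (n' + 1)) ℂ} (hm : 2 ≤ m) {r : ℕ}
    (hr : 1 ≤ r) (hN : Bd r n n') (ha : Function.Injective a)
    (hF : ∀ e, IsForm (F e)) (hS : AllSimple a n m F) (hΦ : ∀ e, IsForm (Φ e))
    (hG : Mor F Φ G) (hon : Onto F Φ G) (hfib : FibresLe F G r) {K : Type} [Field K] [Algebra ℂ K]
    {w : ℕ} {z : Fin (M + 1) → K} (hw : 1 ≤ w) (hz : SubVar Φ K w z) (hc : IsComponent Φ z) :
    [GeneralType ℂ K w, StronglyGeneral ℂ z, PseudoPicard z, PseudoBrody z, ¬ IsUniruled ℂ K w,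
      ¬ VarPts ℂ z ⊆ SpAlg Φ, ¬ VarPts ℂ z ⊆ SpGm Φ, ¬ VarPts ℂ z ⊆ SpH Φ,
      ¬ VarPts ℂ z ⊆ im G '' SpLine F].TFAE := by
  obtain ⟨h1, h2, h3, h4⟩ := special_imL hm hr hN ha hF hS hΦ hG hon hfib
  obtain ⟨hb1, hb2⟩ := brody_iff hΦ hz.ne hz.mem
  have h5 := sub_tfae hm hr hN.1 ha hF hS hG hon hfib hw hz
  obtain ⟨E, i1, i2, i3, i4, i5, u, i0, c, hrk, hu0, huF, hc0, hcz, htop⟩ :=
    lift_point hF hG hon hfib hz.ne hz.mem
  have hu : u ≠ 0 := by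
    intro h0
    rw [h0] at hu0
    exact zero_ne_one hu0
  have hgen : coords ℂ u = ⊤ := lift_gen hz.gen hu0 hc0 hcz htop
  have htr : Algebra.trdeg ℂ E = w := by rw [trdeg_alg (E := K), hz.dim]
  obtain ⟨P, hdeg, hval, hfac⟩ := poly_of hm (n_le hN.1 hr) ha hS hu huF
  have h6 := Pool.Agent.N115.AN.below_all Pool.Agent.N115.AN.alg_pow'
    Pool.Agent.N115.AN.picard_of' Pool.Agent.N115.AN.strong_of' (L := K) hm hr hw hN ha htr hu
    hgen hdeg hval hfac hrk (x := z) hz.ne hz.gen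
  tfae_have 1 ↔ 2 := h6.out 0 1
  tfae_have 1 ↔ 3 := h6.out 0 2
  tfae_have 1 ↔ 4 := h6.out 0 3
  tfae_have 1 ↔ 5 := h6.out 0 6
  tfae_have 4 → 8 := hb2 hc
  tfae_have 8 → 4 := hb1
  tfae_have 8 ↔ 9 := by rw [h3]
  tfae_have 7 ↔ 9 := by rw [h4]
  tfae_have 6 ↔ 9 := by rw [h1]
  tfae_finish

end cx

end Pool.Agent.N115.JU
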