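import Pool.Agent.N115.JS.Spc
import Pool.Agent.Y190.PH.Clo

/-!
Multi-valued maps to closed subsets of the varieties of powers of values of polynomials: either the
reduced map is generically finite, or the values lie on lines contained in the closed subset.
-/

set_option autoImplicit false
set_option linter.unusedSectionVars false

open FF Polynomial

namespace Pool.Agent.N115.JU

open Pool.Agent.W602.GT
open Pool.Agent.N115.JS
open Pool.Agent.Y190.BV (intp intp_eval intp_natDegree line_vanish buchi)
open Pool.Agent.Y190.PH (AllSimple simple_all)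

variable {k : Type} [Field k] [IsAlgClosed k] [CharZero k] {N n m : ℕ} {ι : Type}

theorem coords_ratio {E : Type} [Field E] [Algebra k E] {z : Fin (N + 1) → E}
    (i j : Fin (N + 1)) (hj : z j ≠ 0) : z i / z j ∈ coords k z :=
  IntermediateField.subset_adjoin k _ ⟨i, j, hj, rfl⟩

/-- **Moving points.** -/
theorem fin_or_line (hm : 2 ≤ m) {a : Fin (N + 1) → k} (ha : Function.Injective a) (hnN : 2 ≤ n → n < N)
    {F : ι → MvPolynomial (Fin (N + 1)) k} (hF : ∀ e, IsForm (F e)) {E : Type} [Field E]
    [Algebra k E] {y : Fin (N + 1) → E} (hy : y ≠ 0) (hyF : ∀ e, val y (F e) = 0)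
    {q H : E[X]} (hdeg : (q ^ m * H).natDegree ≤ n)
    (hval : ∀ i, y i ^ m = (q ^ m * H).eval (algebraMap k E (a i))) (hq1 : q.natDegree ≤ 1)
    {z : Fin (N + 1) → E} (hz : ∀ i, z i = y i / q.eval (algebraMap k E (a i)))
    {G : MvPolynomial (Fin (N + 1)) k}
    (hG : ∀ p p', Line F p p' → ∀ c c' : k, val (c • p + c' • p') G = 0) (hne : val y G ≠ 0) :
    ∀ i j, y j ≠ 0 → IsAlgebraic (coords k z) (y i / y j) := by
  classical
  have hchar : CharZero E := charZero_of_injective_algebraMap (algebraMap k E).injective
  have hinf : Infinite E := inferInstance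
  have hP0 : q ^ m * H ≠ 0 := by
    intro h0
    apply hy
    funext i
    have h1 := hval i
    rw [h0, eval_zero] at h1
    exact eq_zero_of_pow_eq_zero h1
  have hq0 : q ≠ 0 := by
    rintro rfl
    apply hP0
    rw [zero_pow (by omega), zero_mul]
  have hH0 : H ≠ 0 := right_ne_zero_of_mul hP0
  have hqev : ∀ i, y i ≠ 0 → q.eval (algebraMap k E (a i)) ≠ 0 := by
    intro i hi h0
    apply hi
    have h1 := hval i
    rw [eval_mul, eval_pow, h0, zero_pow (by omega), zero_mul] at h1
    exact eq_zero_of_pow_eq_zero h1
  have hyz : ∀ i, y i = q.eval (algebraMap k E (a i)) * z i := by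
    intro i
    by_cases hi : y i = 0
    · rw [hz, hi, zero_div, mul_zero]
    · rw [hz, mul_comm, div_mul_cancel₀ _ (hqev i hi)]
  have hz0 : ∀ i, y i ≠ 0 → z i ≠ 0 := fun i hi => by
    rw [hz]
    exact div_ne_zero hi (hqev i hi)
  intro i j hj
  have hzj := hz0 j hj
  rcases Nat.lt_or_ge q.natDegree 1 with hd | hd
  · -- constant `q`
    have hd0 : q.natDegree = 0 := by omega
    obtain ⟨c, hc⟩ : ∃ c, q = C c := ⟨_, eq_C_of_natDegree_eq_zero hd0⟩
    have hc0 : c ≠ 0 := by
      rintro rfl
      exact hq0 (by rw [hc, C_0])
    have e : y i / y j = z i / z j := by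
      rw [hyz i, hyz j, hc, eval_C, eval_C, mul_div_mul_left _ _ hc0]
    rw [e]
    exact isAlgebraic_algebraMap (⟨_, coords_ratio i j hzj⟩ : coords k z)
  · have hd1 : q.natDegree = 1 := by omega
    have hn2 : 2 ≤ n := by
      rw [natDegree_mul (pow_ne_zero _ hq0) hH0, natDegree_pow, hd1, mul_one] at hdeg
      omega
    have hnN' := hnN hn2
    set c := q.leadingCoeff with hc
    have hc0 : c ≠ 0 := leadingCoeff_ne_zero.2 hq0
    set t := -(q.coeff 0) / c with ht
    have hqe : ∀ x, q.eval x = c * (x - t) := by
      intro x
      rw [eval_eq_sum_range, hd1, Finset.sum_range_succ, Finset.sum_range_one, pow_zero, mul_one,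
        pow_one]
      have h1 : q.coeff 1 = c := by rw [hc, leadingCoeff, hd1]
      rw [h1, ht]
      field_simp
      ring
    -- the line
    let z' : Fin (N + 1) → E := fun l => c * z l
    have hyz' : ∀ l, y l = (algebraMap k E (a l) - t) * z' l := by
      intro l
      rw [hyz l, hqe]
      ring
    have hcz : coords k z' = coords k z := by
      unfold coords
      congr 1
      ext x
      constructor
      · rintro ⟨i, j, hj, rfl⟩
        have hj' : z j ≠ 0 := fun h => hj (by
          change c * z j = 0
          rw [h, mul_zero])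
        exact ⟨i, j, hj', by
          change c * z i / (c * z j) = _
          rw [mul_div_mul_left _ _ hc0]⟩
      · rintro ⟨i, j, hj, rfl⟩
        exact ⟨i, j, mul_ne_zero hc0 hj, by
          change _ = c * z i / (c * z j)
          rw [mul_div_mul_left _ _ hc0]⟩
    by_cases htr : Transcendental (coords k z') t
    · exfalso
      apply hne
      have hzj' : z' j ≠ 0 := mul_ne_zero hc0 hzj
      -- a second nonzero coordinate
      obtain ⟨l, hlj, hl⟩ : ∃ l, l ≠ j ∧ y l ≠ 0 := by
        by_contra hcon
        push Not at hcon
        have h1 : (Finset.univ.erase j).card ≤ (q ^ m * H).natDegree := by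
          refine card_q_zeros ha hP0 _ fun l hl => ?_
          rw [← hval l, hcon l (Finset.ne_of_mem_erase hl), zero_pow (by omega)]
        rw [Finset.card_erase_of_mem (Finset.mem_univ j), Finset.card_univ, Fintype.card_fin] at h1
        omega
      have hzl' : z' l ≠ 0 := mul_ne_zero hc0 (hz0 l hl)
      refine mem_closure y z' ⟨l, j, ?_⟩
        (fun c c' e => line_vanish hyz' hzj' htr (hF e) (hyF e) c c') hG
      rw [hyz' l, hyz' j]
      have e : (algebraMap k E (a l) - t) * z' l * z' j - (algebraMap k E (a j) - t) * z' j * z' l =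
          algebraMap k E (a l - a j) * (z' l * z' j) := by
        rw [map_sub]; ring
      rw [e]
      exact mul_ne_zero ((_root_.map_ne_zero _).2 (sub_ne_zero.2 fun h => hlj (ha h)))
        (mul_ne_zero hzl' hzj')
    · rw [hcz] at htr
      have halg : IsAlgebraic (coords k z) t := by
        by_contra hcon
        exact htr hcon
      have e : y i / y j = ((algebraMap k E (a i) - t) * (algebraMap k E (a j) - t)⁻¹) *
          (z i / z j) := by
        rw [hyz i, hyz j, hqe, hqe]
        have h2 : algebraMap k E (a j) - t ≠ 0 := by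
          intro h0
          apply hqev j hj
          rw [hqe, h0, mul_zero]
        field_simp
      rw [e]
      have hk : ∀ x : k, IsAlgebraic (coords k z) (algebraMap k E x) := fun x => by
        have h3 : algebraMap k E x = algebraMap (coords k z) E (algebraMap k (coords k z) x) := by
          rw [← IsScalarTower.algebraMap_apply]
        rw [h3]
        exact isAlgebraic_algebraMap _
      exact (((hk _).sub halg).mul ((hk _).sub halg).inv).mul
        (isAlgebraic_algebraMap (⟨_, coords_ratio i j hzj⟩ : coords k z))

end Pool.Agent.N115.JU
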