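import Pool.Agent.N115.JU.Core
import Pool.Agent.N115.AN.Main
import Pool.Agent.Y221.FQ.Gen

/-!
Subvarieties of the images, under finite morphisms, of finite covers of closed subsets of the
varieties of powers of values of polynomials.
-/

set_option autoImplicit false
set_option linter.unusedSectionVars false

open FF Polynomial

namespace Pool.Agent.N115.JU

open Pool.Agent.W602.GT
open Pool.Agent.TH466.QG (trdeg_alg)
open Pool.Agent.Y221.FQ
open Pool.Agent.N115.JS
open Pool.Agent.N115.JT (trans_alg adjoin_alg)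
open Pool.Agent.Y190.BV (intp intp_eval intp_natDegree sub_ext not_gt_ruled)
open Pool.Agent.Y190.PH (AllSimple simple_all)
open Pool.Agent.N441.AN8 (gen0)
open Pool.Agent.TH466.QG (StronglyGeneral)
open Pool.Agent.Y221.PD (PseudoPicard PseudoAbelian PseudoTorus)
open Pool.Agent.Y221.BD (PseudoBrody)
open Pool.Agent.W619.PQ (IsUniruled)

/-- one map whose reduced map is generically finite: general type -/
theorem general_of_joint {k L : Type} [Field k] [Field L] [Algebra k L] [CharZero k]
    [IsAlgClosed k] {N n r : ℕ} {a : Fin (N + 1) → k} (f : Corr k L a n r) (hr : 1 ≤ r)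
    (hn : n ≤ N) (hs : Bound N n r 1) (ha : Function.Injective a) {w : ℕ}
    (hw : Algebra.trdeg k L = w) (h : JointlyFinite (fun _ : Unit => f)) : GeneralType k L w := by
  have h0 := base_top (fun _ : Unit => f) h
  let e : baseField (fun _ : Unit => f) ≃ₐ[k] L :=
    (IntermediateField.equivOfEq h0).trans IntermediateField.topEquiv
  have h3 : Algebra.trdeg k (baseField (fun _ : Unit => f)) = w := by rw [e.trdeg_eq, hw]
  exact Pool.Agent.TH466.QG.general_of_equiv e
    (base_general (fun _ : Unit => f) hr hn hs ha h3 (Or.inr ⟨inferInstance, by simp⟩))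

/-- the point, over its field of definition -/
structure PtData (k : Type) [Field k] {E : Type} [Field E] [Algebra k E] {N : ℕ}
    (a : Fin (N + 1) → k) (n m : ℕ) (y : Fin (N + 1) → E) (y1 : Fin (N + 1) → coords k y)
    (P : (coords k y)[X]) : Prop where
  ne : y1 ≠ 0
  gen : coords k y1 = ⊤
  deg : P.natDegree ≤ n
  val : ∀ i, y1 i ^ m = P.eval (algebraMap k (coords k y) (a i))
  fac : ∀ q : (coords k y)[X], 2 ≤ q.natDegree → ¬ q ^ m ∣ P

section general

variable {k : Type} [Field k] [IsAlgClosed k] [CharZero k] {m' n' M : ℕ} {ι κ μ : Type}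
  {Ψ : κ → MvPolynomial (Fin (m' + 1)) k} {F : ι → MvPolynomial (Fin (n' + 1)) k}
  {Φ : μ → MvPolynomial (Fin (M + 1)) k} {G : Fin (M + 1) → MvPolynomial (Fin (m' + 1)) k}
  {B : Fin (n' + 1) → MvPolynomial (Fin (m' + 1)) k} {n m : ℕ} {a : Fin (n' + 1) → k}

/-- **Dichotomy for the points of `{F = 0}`.** -/
theorem pt_data (hm : 2 ≤ m) (hN : 4 * n + (n + 1) ^ 2 < 2 * (n' + 1))
    (ha : Function.Injective a) (hF : ∀ e, IsForm (F e)) (hS : AllSimple a n m F) {E : Type}
    [Field E] [Algebra k E] {y : Fin (n' + 1) → E} (hy : y ≠ 0) (hyF : ∀ e, val y (F e) = 0)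
    {w : ℕ} (hw : Algebra.trdeg k (coords k y) = w) :
    ∃ (y1 : Fin (n' + 1) → coords k y) (P : (coords k y)[X]), PtData k a n m y y1 P ∧
      (GeneralType k (coords k y) w ∨
        ∀ H' : MvPolynomial (Fin (n' + 1)) k, IsForm H' → VanLine F H' → val y H' = 0) := by
  classical
  have hn : n ≤ n' := by nlinarith
  have hnN : 2 ≤ n → n < n' := fun h => by nlinarith
  obtain ⟨j1, hj1'⟩ := Function.ne_iff.1 hy
  have hj1 : y j1 ≠ 0 := hj1'
  obtain ⟨y1, hy1, hgen1⟩ := gen0 (k := k) y j1 hj1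
  have hj0 : y1 j1 ≠ 0 := by
    intro h0
    have h1 := hy1 j1
    rw [h0, div_self hj1] at h1
    exact zero_ne_one ((ZeroMemClass.coe_zero _).symm.trans h1)
  have hy10 : y1 ≠ 0 := fun h => hj0 (congrFun h j1)
  -- forms at `y` and `y1`
  have hval1 : ∀ H' : MvPolynomial (Fin (n' + 1)) k, IsForm H' → (val y1 H' = 0 ↔ val y H' = 0) := by
    rintro H' ⟨d, hd⟩
    have h1 := val_map (coords k y).val H' y1
    have h2 : (fun i => (coords k y).val (y1 i)) = fun i => (y j1)⁻¹ * y i := by
      funext i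
      have h3 : (coords k y).val (y1 i) = (y1 i : E) := rfl
      rw [h3, hy1 i, div_eq_mul_inv, mul_comm]
    rw [h2, val_smul hd] at h1
    constructor
    · intro h0
      rw [h0, map_zero] at h1
      exact (mul_eq_zero.1 h1.symm).resolve_left (pow_ne_zero _ (inv_ne_zero hj1))
    · intro h0
      rw [h0, mul_zero] at h1
      exact (map_eq_zero _).1 h1
  have hy1F : ∀ e, val y1 (F e) = 0 := fun e => (hval1 _ (hF e)).2 (hyF e)
  have hs := simple_all (by omega) hn ha hS hy10 hy1F
  have hyb := sub_ext (hS.sub hn ha) hy10 hy1F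
  have hev : ∀ i, (intp a hn (fun i => y1 i ^ m)).eval (algebraMap k (coords k y) (a i)) =
    y1 i ^ m := intp_eval ha hn m hyb
  have hdeg : (intp a hn (fun i => y1 i ^ m)).natDegree ≤ n := intp_natDegree ha hn _
  obtain ⟨P, hP⟩ : ∃ P, P = intp a hn (fun i => y1 i ^ m) := ⟨_, rfl⟩
  rw [← hP] at hev hdeg hs
  refine ⟨y1, P, ⟨hy10, hgen1, hdeg, fun i => (hev i).symm, fun q hq h => ?_⟩, ?_⟩
  · have := hs q h
    omega
  by_cases hall : ∀ H' : MvPolynomial (Fin (n' + 1)) k, IsForm H' → VanLine F H' → val y H' = 0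
  · exact Or.inr hall
  left
  push Not at hall
  obtain ⟨H', hH'f, hH'v, hH'ne⟩ := hall
  have hP0 : P ≠ 0 := by
    rintro rfl
    apply hy10
    funext i
    have h1 := hev i
    rw [eval_zero] at h1
    exact eq_zero_of_pow_eq_zero h1.symm
  obtain ⟨q, Q, hqQ, hfree⟩ := exists_free (by omega : 1 ≤ m) P hP0
  let f : Corr k (coords k y) a n 1 :=
    { m := m
      two_le := hm
      E := coords k y
      degree_le := by rw [Module.finrank_self]
      y := y1
      q := q
      H := Q
      ne := hy10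
      deg := by rw [← hqQ]; exact hdeg
      val := fun i => by rw [← hqQ, hev]
      free := hfree }
  have hq1 : q.natDegree ≤ 1 := hs q ⟨Q, hqQ⟩
  have hrat := fin_or_line hm ha hnN hF hy10 hy1F f.deg f.val hq1 (z := f.red) (fun i => rfl)
    hH'v (fun h0 => hH'ne ((hval1 _ hH'f).1 h0))
  have hco : ∀ x ∈ coords k y1, IsAlgebraic (coords k f.red) x := by
    have h5 : coords k y1 = IntermediateField.adjoin k {x | ∃ i j, y1 j ≠ 0 ∧ x = y1 i / y1 j} := rfl
    rw [h5]
    refine adjoin_alg ?_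
    rintro _ ⟨i, j, hj, rfl⟩
    exact hrat i j hj
  have hb : Bound n' n 1 1 := by
    unfold Bound
    simpa using hN
  refine general_of_joint f le_rfl hn hb ha hw (joint_of_alg f ⟨fun x => hco x ?_⟩)
  rw [hgen1]
  exact IntermediateField.mem_top

/-- **Subvarieties.** -/
theorem sub_vanL (hm : 2 ≤ m) {r : ℕ} (hr : 1 ≤ r)
    (hN : 4 * n + (n + 2 * r - 1) ^ 2 < 2 * (n' + 1)) (ha : Function.Injective a)
    (hF : ∀ e, IsForm (F e)) (hS : AllSimple a n m F) (hΨ : ∀ e, IsForm (Ψ e)) (hB : Mor Ψ F B)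
    (hG : Mor Ψ Φ G) (hon : Onto Ψ Φ G) (hfib : FibresLe Ψ G r) {K : Type} [Field K]
    [Algebra k K] {w : ℕ} {z : Fin (M + 1) → K} (hw : 1 ≤ w) (hz : SubVar Φ K w z)
    (hgt : ¬ GeneralType k K w) {H : MvPolynomial (Fin (M + 1)) k} (hHf : IsForm H)
    (hH : ∀ x ∈ Cone Ψ, im B x ∈ SpLine F → val (im G x) H = 0) : val z H = 0 := by
  obtain ⟨E, i1, i2, i3, i4, i5, u, i0, c, hrk, hu0, huΨ, hc0, hcz, htop⟩ :=
    lift_point hΨ hG hon hfib hz.ne hz.mem
  have hu : u ≠ 0 := by
    intro h0
    rw [h0] at hu0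
    exact zero_ne_one hu0
  obtain ⟨hy, hyF⟩ := hB.mem hu huΨ
  have halg := lift_alg (G := G) hΨ hB hz.gen hu0 huΨ hc0 hcz htop
  have htr : Algebra.trdeg k E = w := by rw [trdeg_alg (E := K), hz.dim]
  have htr1 : Algebra.trdeg k (coords k (im B u)) = w := by
    rw [← htr, trdeg_alg (k := k) (E := coords k (im B u)) (K := E)]
  have hN1 : 4 * n + (n + 1) ^ 2 < 2 * (n' + 1) := by
    have h1 : n + 1 ≤ n + 2 * r - 1 := by omega
    have h2 : (n + 1) ^ 2 ≤ (n + 2 * r - 1) ^ 2 := Nat.pow_le_pow_left h1 2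
    omega
  obtain ⟨y1, P, hd, h⟩ := pt_data hm hN1 ha hF hS hy hyF htr1
  refine val_prop hcz hHf (van_imL hB hH hu0 huΨ ?_)
  rcases h with h | h
  · exfalso
    apply hgt
    have hess : Algebra.EssFiniteType k K := essFinite hz.gen
    have hessE : Algebra.EssFiniteType k E := Algebra.EssFiniteType.comp k K E
    have hfd : FiniteDimensional (coords k (im B u)) E := by
      have h3 : Algebra.EssFiniteType (coords k (im B u)) E :=
        Algebra.EssFiniteType.of_comp k (coords k (im B u)) E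
      obtain ⟨s, hs⟩ := IntermediateField.fg_top (coords k (im B u)) E
      have h1 : FiniteDimensional (coords k (im B u))
          (IntermediateField.adjoin (coords k (im B u)) (s : Set E)) :=
        IntermediateField.finiteDimensional_adjoin fun x _ => (halg.isAlgebraic x).isIntegral
      rw [hs] at h1
      exact h1.equiv IntermediateField.topEquiv.toLinearEquiv
    refine Pool.Agent.N115.IM.corr_general (K' := E) hm hr hw hN ha htr1 hd.ne hd.gen hd.deg
      hd.val hd.fac ?_ hrk
    rintro ⟨C, t, ht, htt⟩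
    exact not_gt_ruled ht htt w h
  · exact h

end general

end Pool.Agent.N115.JU
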